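import Pool.Agent.helper29.RPQ.SpecP
import Pool.Agent.helper97.RS.CV1

set_option autoImplicit false

open scoped MatrixGroups ContDiff Topology UpperHalfPlane ComplexConjugate
open UpperHalfPlane MeasureTheory Filter Set

namespace Pool.Agent.RPQ

open Pool.Agent.RS
open Pool.Agent.MS (BA BB st pf gk Dk amk)

theorem ACM_cd (c : ℍ → ℂ) (hc : QU.CD ∞ c) : ContDiff ℝ ∞ (fun q : ℝ × ℝ => cc c q.1 q.2) := by
  have h1 : ContDiff ℝ ∞ fun p : ℝ × ℝ => (p.1 : ℂ) + ((Real.exp p.2 : ℝ) : ℂ) * Complex.I := by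
    have h2 : ContDiff ℝ ∞ fun p : ℝ × ℝ => (p.1 : ℂ) := Complex.ofRealCLM.contDiff.comp contDiff_fst
    have h3 : ContDiff ℝ ∞ fun p : ℝ × ℝ => ((Real.exp p.2 : ℝ) : ℂ) :=
      Complex.ofRealCLM.contDiff.comp (Real.contDiff_exp.comp contDiff_snd)
    exact h2.add (h3.mul contDiff_const)
  have h4 := ContDiffOn.comp_contDiff hc h1 (fun p => by
    show 0 < ((p.1 : ℂ) + ((Real.exp p.2 : ℝ) : ℂ) * Complex.I).im
    rw [CV1_mk]
    exact Real.exp_pos _)
  have h5 : (fun p : ℝ × ℝ => cc c p.1 p.2) =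
      (QU.onC c ∘ fun p : ℝ × ℝ => (p.1 : ℂ) + ((Real.exp p.2 : ℝ) : ℂ) * Complex.I) := by
    funext p
    show c (pt p.1 p.2) = c (ofComplex ((p.1 : ℂ) + ((Real.exp p.2 : ℝ) : ℂ) * Complex.I))
    rw [← CV1_pt, CV1_mk]
  rw [h5]
  exact h4

theorem ACM_zero (w l : ℝ) (c : ℍ → ℂ) (hs : ∀ z : ℍ, c z ≠ 0 → |z.re| ≤ w ∧ |Real.log z.im| ≤ l)
    (p : ℝ × ℝ) (hp : ¬ (|p.1| ≤ w ∧ |p.2| ≤ l)) : (fun q : ℝ × ℝ => cc c q.1 q.2) =ᶠ[𝓝 p] fun _ => (0 : ℂ) := by
  have h2 : {q : ℝ × ℝ | w < |q.1| ∨ l < |q.2|} ∈ 𝓝 p := by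
    have h3 : IsOpen {q : ℝ × ℝ | w < |q.1| ∨ l < |q.2|} :=
      (isOpen_lt continuous_const (continuous_abs.comp continuous_fst)).union
        (isOpen_lt continuous_const (continuous_abs.comp continuous_snd))
    refine h3.mem_nhds ?_
    by_contra h
    refine hp ⟨not_lt.mp fun h' => h (Or.inl h'), not_lt.mp fun h' => h (Or.inr h')⟩
  filter_upwards [h2] with q hq
  by_contra hne
  have h3 := hs (pt q.1 q.2) hne
  rw [CV1_ptre, CV1_ptim, Real.log_exp] at h3
  rcases hq with h | h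
  · exact absurd h3.1 (not_le.mpr h)
  · exact absurd h3.2 (not_le.mpr h)

theorem ACM_proof : ACM_stmt := by
  refine ⟨fun k => ⟨2 ^ k, by positivity, ?_⟩, ?_, ?_⟩
  · intro A A' m w l c u hA hA' hm hc hu hder
    have hm0 : 0 ≤ m := zero_le_one.trans hm
    refine ⟨?_, fun z hz => hc.supp z (fun h => hz (by rw [h, zero_mul])), ?_⟩
    · exact ContDiffOn.mul hc.smooth hu
    · intro n hn p
      by_cases hp : |p.1| ≤ w ∧ |p.2| ≤ l
      · have h1 := norm_iteratedFDeriv_mul_le (ACM_cd c hc.smooth) (ACM_cd u hu) p (n := n)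
          (by exact_mod_cast le_top)
        refine h1.trans ?_
        have h2 : ∀ i ∈ Finset.range (n + 1), (n.choose i : ℝ) *
            ‖iteratedFDeriv ℝ i (fun q : ℝ × ℝ => cc c q.1 q.2) p‖ *
            ‖iteratedFDeriv ℝ (n - i) (fun q : ℝ × ℝ => cc u q.1 q.2) p‖ ≤ (n.choose i : ℝ) * (A * A' * m ^ n) := by
          intro i hi
          have hi' : i ≤ n := Nat.lt_succ_iff.mp (Finset.mem_range.mp hi)
          have h3 := hc.der i (hi'.trans hn) p
          have h4 := hder (n - i) ((Nat.sub_le _ _).trans hn) p hp.1 hp.2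
          have h5 : m ^ i * m ^ (n - i) = m ^ n := by
            rw [← pow_add]; congr 1; omega
          rw [mul_assoc]
          refine mul_le_mul_of_nonneg_left ?_ (Nat.cast_nonneg _)
          refine (mul_le_mul h3 h4 (norm_nonneg _) (by positivity)).trans (le_of_eq ?_)
          rw [← h5]; ring
        refine (Finset.sum_le_sum h2).trans ?_
        rw [← Finset.sum_mul]
        have h6 : (∑ i ∈ Finset.range (n + 1), (n.choose i : ℝ)) = 2 ^ n := by
          have := Nat.sum_range_choose n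
          exact_mod_cast this
        rw [h6]
        have h7 : (2 : ℝ) ^ n ≤ 2 ^ k := pow_le_pow_right₀ one_le_two hn
        have h8 : 0 ≤ A * A' * m ^ n := by positivity
        calc (2 : ℝ) ^ n * (A * A' * m ^ n) ≤ 2 ^ k * (A * A' * m ^ n) := mul_le_mul_of_nonneg_right h7 h8
          _ = 2 ^ k * (A * A') * m ^ n := by ring
      · have h1 := ACM_zero w l c hc.supp p hp
        have h2 : (fun q : ℝ × ℝ => cc (fun z => c z * u z) q.1 q.2) =ᶠ[𝓝 p] fun _ => (0 : ℂ) := by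
          filter_upwards [h1] with q hq
          show cc c q.1 q.2 * cc u q.1 q.2 = 0
          rw [hq, zero_mul]
        have h3 := (Filter.EventuallyEq.iteratedFDeriv (𝕜 := ℝ) h2 n).eq_of_nhds
        rw [h3]
        have h4 : iteratedFDeriv ℝ n (fun _ : ℝ × ℝ => (0 : ℂ)) p = 0 := by
          simp
        rw [h4, norm_zero]
        positivity
  · intro k k' A A' m m' w w' l l' c hk hA hA0 hm hmm hw hl hc
    refine ⟨hc.smooth, fun z hz => ?_, fun n hn p => ?_⟩
    · have h1 := hc.supp z hz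
      exact ⟨h1.1.trans hw, h1.2.trans hl⟩
    · refine (hc.der n (hn.trans hk) p).trans ?_
      exact mul_le_mul hA (pow_le_pow_left₀ hm hmm n) (by positivity) (hA0.trans hA)
  · intro k A m w l c hw hl hc
    refine ⟨hc.smooth, fun z hz => ?_⟩
    have h1 := hc.supp z hz
    exact ⟨h1.1.trans hw, h1.2.trans hl⟩

end Pool.Agent.RPQ
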