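import Pool.Agent.helper29.RPQ.SpecP
import Pool.Agent.helper97.RS.ALH

set_option autoImplicit false

open scoped MatrixGroups ContDiff Topology UpperHalfPlane ComplexConjugate
open UpperHalfPlane MeasureTheory Filter Set

namespace Pool.Agent.RPQ

open Pool.Agent.RS
open Pool.Agent.MS (BA BB st pf gk Dk amk)

theorem HFB_sc (α : ℝ → ℝ) (l σ : ℝ) (hl : 0 < l) : hF (sc l α) σ = hF α (l * σ) := by
  unfold hF
  have h1 := MeasureTheory.Measure.integral_comp_div
    (fun y : ℝ => ((α y / l : ℝ) : ℂ) * Complex.exp (-((σ * (l * y) : ℝ) : ℂ) * Complex.I)) l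
  rw [abs_of_pos hl] at h1
  have h2 : (∫ τ : ℝ, (sc l α τ : ℂ) * Complex.exp (-((σ * τ : ℝ) : ℂ) * Complex.I)) =
      ∫ x : ℝ, (fun y : ℝ => ((α y / l : ℝ) : ℂ) * Complex.exp (-((σ * (l * y) : ℝ) : ℂ) * Complex.I)) (x / l) := by
    refine integral_congr_ae (Eventually.of_forall fun x => ?_)
    show (sc l α x : ℂ) * Complex.exp (-((σ * x : ℝ) : ℂ) * Complex.I) =
      ((α (x / l) / l : ℝ) : ℂ) * Complex.exp (-((σ * (l * (x / l)) : ℝ) : ℂ) * Complex.I)
    have h3 : l * (x / l) = x := by field_simp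
    rw [h3]
    rfl
  rw [h2, h1, ← integral_smul]
  refine integral_congr_ae (Eventually.of_forall fun y => ?_)
  show l • (((α y / l : ℝ) : ℂ) * Complex.exp (-((σ * (l * y) : ℝ) : ℂ) * Complex.I)) =
    (α y : ℂ) * Complex.exp (-(((l * σ) * y : ℝ) : ℂ) * Complex.I)
  have h4 : σ * (l * y) = (l * σ) * y := by ring
  rw [h4, Complex.real_smul, ← mul_assoc, ← Complex.ofReal_mul]
  have h5 : l * (α y / l) = α y := by field_simp
  rw [h5]

theorem HFB_st (β : ℝ → ℝ) (o k : ℝ) :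
    hF (st o β) k = ((Real.exp (o / 2) : ℝ) : ℂ) * hF β (Real.exp o * k) := by
  unfold hF
  have hl := Real.exp_pos o
  have h1 := MeasureTheory.Measure.integral_comp_div
    (fun y : ℝ => ((Real.exp (-(o / 2)) * β y : ℝ) : ℂ) * Complex.exp (-((k * (Real.exp o * y) : ℝ) : ℂ) * Complex.I)) (Real.exp o)
  rw [abs_of_pos hl] at h1
  have h2 : (∫ τ : ℝ, (st o β τ : ℂ) * Complex.exp (-((k * τ : ℝ) : ℂ) * Complex.I)) =
      ∫ x : ℝ, (fun y : ℝ => ((Real.exp (-(o / 2)) * β y : ℝ) : ℂ) *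
        Complex.exp (-((k * (Real.exp o * y) : ℝ) : ℂ) * Complex.I)) (x / Real.exp o) := by
    refine integral_congr_ae (Eventually.of_forall fun x => ?_)
    show (st o β x : ℂ) * Complex.exp (-((k * x : ℝ) : ℂ) * Complex.I) =
      ((Real.exp (-(o / 2)) * β (x / Real.exp o) : ℝ) : ℂ) *
        Complex.exp (-((k * (Real.exp o * (x / Real.exp o)) : ℝ) : ℂ) * Complex.I)
    have h3 : Real.exp o * (x / Real.exp o) = x := by field_simp
    have h4 : x / Real.exp o = Real.exp (-o) * x := by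
      rw [Real.exp_neg, div_eq_mul_inv, mul_comm]
    rw [h3, h4]
    rfl
  rw [h2, h1, ← integral_smul, ← integral_const_mul]
  refine integral_congr_ae (Eventually.of_forall fun y => ?_)
  show Real.exp o • (((Real.exp (-(o / 2)) * β y : ℝ) : ℂ) *
      Complex.exp (-((k * (Real.exp o * y) : ℝ) : ℂ) * Complex.I)) =
    ((Real.exp (o / 2) : ℝ) : ℂ) * ((β y : ℂ) * Complex.exp (-(((Real.exp o * k) * y : ℝ) : ℂ) * Complex.I))
  have h4 : k * (Real.exp o * y) = (Real.exp o * k) * y := by ring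
  rw [h4, Complex.real_smul, ← mul_assoc, ← mul_assoc, ← Complex.ofReal_mul, ← Complex.ofReal_mul]
  have h5 : Real.exp o * (Real.exp (-(o / 2)) * β y) = Real.exp (o / 2) * β y := by
    rw [← mul_assoc, ← Real.exp_add]
    congr 2
    ring
  rw [h5]

theorem HFB_norm (a σ τ : ℝ) :
    ‖(a : ℂ) * Complex.exp (-((σ * τ : ℝ) : ℂ) * Complex.I)‖ = |a| := by
  have h1 : (-((σ * τ : ℝ) : ℂ) * Complex.I) = ((-(σ * τ) : ℝ) : ℂ) * Complex.I := by push_cast; ring
  rw [norm_mul, h1, Complex.norm_exp_ofReal_mul_I, mul_one, Complex.norm_real, Real.norm_eq_abs]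

theorem HFB_int (γ : ℝ → ℝ) (k : ℝ) : ‖hF γ k‖ ≤ ∫ x, |γ x| := by
  unfold hF
  refine (norm_integral_le_integral_norm _).trans (le_of_eq ?_)
  exact integral_congr_ae (Eventually.of_forall fun τ => HFB_norm (γ τ) k τ)

theorem HFB_dS (w : ℝ) (γ : ℝ → ℝ) (h : SB w γ) : SB w (deriv γ) := by
  refine ⟨?_, fun x hx => ?_⟩
  · exact (contDiff_infty_iff_deriv.mp h.1).2
  · by_contra hlt
    push Not at hlt
    apply hx
    have h1 : γ =ᶠ[𝓝 x] fun _ => (0 : ℝ) := by
      have h2 : {y : ℝ | w < |y|} ∈ 𝓝 x := (isOpen_lt continuous_const continuous_abs).mem_nhds hlt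
      filter_upwards [h2] with y hy
      by_contra hne
      exact absurd (h.2 y hne) (not_le.mpr hy)
    rw [h1.deriv_eq]
    exact deriv_const x 0

theorem HFB_der (w : ℝ) (γ : ℝ → ℝ) (h : SB w γ) (k : ℝ) :
    hF (deriv γ) k = ((k : ℂ) * Complex.I) * hF γ k := by
  have hcs : HasCompactSupport γ := ALH_cs w γ h
  have hd : Differentiable ℝ γ := h.1.differentiable (by simp)
  have hcd : Continuous (deriv γ) := (HFB_dS w γ h).1.continuous
  have hcsd : HasCompactSupport (deriv γ) := ALH_cs w _ (HFB_dS w γ h)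
  have hu : ∀ x : ℝ, HasDerivAt (fun x : ℝ => Complex.exp (-((k * x : ℝ) : ℂ) * Complex.I))
      (Complex.exp (-((k * x : ℝ) : ℂ) * Complex.I) * (-(k : ℂ) * Complex.I)) x := by
    intro x
    have h1 : HasDerivAt (fun x : ℝ => (-((k * x : ℝ) : ℂ) * Complex.I)) (-(k : ℂ) * Complex.I) x := by
      have h2 : HasDerivAt (fun x : ℝ => (k * x : ℝ)) k x := by
        have := (hasDerivAt_id x).const_mul k
        simpa using this
      exact (h2.ofReal_comp.neg).mul_const _
    exact h1.cexp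
  have hv : ∀ x : ℝ, HasDerivAt (fun x : ℝ => (γ x : ℂ)) ((deriv γ x : ℝ) : ℂ) x := fun x =>
    (hd x).hasDerivAt.ofReal_comp
  have hce : Continuous fun x : ℝ => Complex.exp (-((k * x : ℝ) : ℂ) * Complex.I) := by fun_prop
  have hcv : Continuous fun x : ℝ => (γ x : ℂ) := Complex.continuous_ofReal.comp h.1.continuous
  have hcv' : Continuous fun x : ℝ => ((deriv γ x : ℝ) : ℂ) := Complex.continuous_ofReal.comp hcd
  have hsv : HasCompactSupport fun x : ℝ => (γ x : ℂ) := hcs.comp_left (g := fun y : ℝ => (y : ℂ)) (by simp)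
  have hsv' : HasCompactSupport fun x : ℝ => ((deriv γ x : ℝ) : ℂ) :=
    hcsd.comp_left (g := fun y : ℝ => (y : ℂ)) (by simp)
  have h3 := MeasureTheory.integral_mul_deriv_eq_deriv_mul_of_integrable (fun x _ => hu x) (fun x _ => hv x)
    ((hce.mul hcv').integrable_of_hasCompactSupport hsv'.mul_left)
    (((hce.mul continuous_const).mul hcv).integrable_of_hasCompactSupport hsv.mul_left)
    ((hce.mul hcv).integrable_of_hasCompactSupport hsv.mul_left)
  unfold hF
  have h4 : (∫ τ : ℝ, ((deriv γ τ : ℝ) : ℂ) * Complex.exp (-((k * τ : ℝ) : ℂ) * Complex.I)) =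
      ∫ x : ℝ, Complex.exp (-((k * x : ℝ) : ℂ) * Complex.I) * ((deriv γ x : ℝ) : ℂ) :=
    integral_congr_ae (Eventually.of_forall fun x => mul_comm _ _)
  rw [h4, h3, ← integral_neg, ← integral_const_mul]
  refine integral_congr_ae (Eventually.of_forall fun x => ?_)
  show -(Complex.exp (-((k * x : ℝ) : ℂ) * Complex.I) * (-(k : ℂ) * Complex.I) * (γ x : ℂ)) =
    ((k : ℂ) * Complex.I) * ((γ x : ℂ) * Complex.exp (-((k * x : ℝ) : ℂ) * Complex.I))
  ring

theorem HFB_low (α : ℝ → ℝ) (hα : BA (1 / 8) α) (σ : ℝ) : 1 - σ ^ 2 ≤ ‖hF α σ‖ := by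
  obtain ⟨hS, hpos, hone⟩ := hα
  have hint := ALH_int (1 / 8) α hS
  have hI : Integrable fun τ : ℝ => (α τ : ℂ) * Complex.exp (-((σ * τ : ℝ) : ℂ) * Complex.I) := by
    have hα := hS.1.continuous
    refine Integrable.mono' hint (by fun_prop : Continuous fun τ : ℝ =>
      (α τ : ℂ) * Complex.exp (-((σ * τ : ℝ) : ℂ) * Complex.I)).aestronglyMeasurable (Eventually.of_forall fun τ => ?_)
    exact (ALH_norm (α τ) σ τ (hpos τ)).le
  have h1 : (hF α σ).re = ∫ τ : ℝ, α τ * Real.cos (σ * τ) := by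
    unfold hF
    have h2 := integral_re (𝕜 := ℂ) hI
    have h3 : (∫ τ : ℝ, (α τ : ℂ) * Complex.exp (-((σ * τ : ℝ) : ℂ) * Complex.I)).re =
        ∫ τ : ℝ, ((α τ : ℂ) * Complex.exp (-((σ * τ : ℝ) : ℂ) * Complex.I)).re := h2.symm
    rw [h3]
    refine integral_congr_ae (Eventually.of_forall fun τ => ?_)
    exact ALH_re (α τ) σ τ
  have hI2 : Integrable fun τ : ℝ => α τ * Real.cos (σ * τ) := by
    refine Integrable.mono' hint ?_ (Eventually.of_forall fun τ => ?_)
    · have hα := hS.1.continuous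
      exact (by fun_prop : Continuous fun τ : ℝ => α τ * Real.cos (σ * τ)).aestronglyMeasurable
    · rw [norm_mul, Real.norm_of_nonneg (hpos τ)]
      exact mul_le_of_le_one_right (hpos τ) (Real.abs_cos_le_one _)
  have h4 : (1 - σ ^ 2) * ∫ x : ℝ, α x ≤ (hF α σ).re := by
    rw [h1, ← integral_const_mul]
    refine integral_mono (hint.const_mul _) hI2 fun τ => ?_
    show (1 - σ ^ 2) * α τ ≤ α τ * Real.cos (σ * τ)
    by_cases hτ : α τ = 0
    · rw [hτ]; simp
    · have h5 := hS.2 τ hτ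
      have h6 := Real.one_sub_sq_div_two_le_cos (x := σ * τ)
      have h7 : (σ * τ) ^ 2 ≤ σ ^ 2 := by
        rw [mul_pow]
        have h8 : τ ^ 2 ≤ 1 := by
          rw [← sq_abs]
          have := abs_nonneg τ
          nlinarith
        nlinarith [sq_nonneg σ]
      have h10 : 1 - σ ^ 2 ≤ Real.cos (σ * τ) := by nlinarith [sq_nonneg (σ * τ)]
      rw [mul_comm]
      exact mul_le_mul_of_nonneg_left h10 (hpos τ)
  rw [hone, mul_one] at h4
  exact h4.trans (Complex.re_le_norm _)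

theorem HFB_proof : HFB_stmt := by
  refine ⟨fun α l σ hl => HFB_sc α l σ hl, fun β o k => HFB_st β o k, fun β hβ => ?_, fun α hα σ => ⟨?_, HFB_low α hα σ⟩⟩
  · have hI0 : 0 ≤ ∫ x, |β x| := integral_nonneg fun x => abs_nonneg _
    have hI2 : 0 ≤ ∫ x, |deriv (deriv β) x| := integral_nonneg fun x => abs_nonneg _
    refine ⟨(∫ x, |β x|) + (∫ x, |deriv (deriv β) x|) + 1, by positivity, fun k => ?_⟩
    have h1 := HFB_int β k
    have h2 := HFB_int (deriv (deriv β)) k
    rw [HFB_der (1 / 8) (deriv β) (HFB_dS _ _ hβ), HFB_der (1 / 8) β hβ] at h2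
    have h3 : ‖(k : ℂ) * Complex.I * ((k : ℂ) * Complex.I * hF β k)‖ = k ^ 2 * ‖hF β k‖ := by
      rw [norm_mul, norm_mul, norm_mul, norm_mul, Complex.norm_I, Complex.norm_real, Real.norm_eq_abs, ← sq_abs]
      ring
    rw [h3] at h2
    nlinarith
  · have h1 := HFB_int α σ
    have h2 : (∫ x, |α x|) = 1 := by
      rw [← hα.2.2]
      exact integral_congr_ae (Eventually.of_forall fun x => abs_of_nonneg (hα.2.1 x))
    rw [h2] at h1
    exact h1

end Pool.Agent.RPQ
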