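import Pool.Agent.helper29.RPQ.SpecP

set_option autoImplicit false

open scoped MatrixGroups ContDiff Topology UpperHalfPlane ComplexConjugate
open UpperHalfPlane MeasureTheory Filter Set

namespace Pool.Agent.RPQ

open Pool.Agent.RS
open Pool.Agent.MS (BA BB st pf gk Dk amk)

theorem LGB_dir {E F : Type*} [NormedAddCommGroup E] [NormedSpace ℝ E] [NormedAddCommGroup F]
    [NormedSpace ℝ F] (U : Set E) (hU : IsOpen U) (v : E) (j : ℕ) :
    ∀ G : E → F, ContDiffOn ℝ ∞ G U → ∃ G' : E → F, ContDiffOn ℝ ∞ G' U ∧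
      ∀ l : ℝ → E, (∀ x, HasDerivAt l v x) → (∀ x, l x ∈ U) →
        ∀ x, iteratedDeriv j (fun x => G (l x)) x = G' (l x) := by
  induction j with
  | zero =>
    intro G hG
    refine ⟨G, hG, fun l _ _ x => ?_⟩
    rw [iteratedDeriv_zero]
  | succ j ih =>
    intro G hG
    have h0 : ContDiffOn ℝ ∞ (fderiv ℝ G) U := hG.fderiv_of_isOpen hU (by simp)
    have hG1 : ContDiffOn ℝ ∞ (fun q => fderiv ℝ G q v) U := h0.clm_apply contDiffOn_const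
    obtain ⟨G', h1, h2⟩ := ih _ hG1
    refine ⟨G', h1, fun l hl hlU x => ?_⟩
    rw [iteratedDeriv_succ']
    have h3 : deriv (fun x => G (l x)) = fun x => fderiv ℝ G (l x) v := by
      funext y
      have h4 : HasFDerivAt G (fderiv ℝ G (l y)) (l y) :=
        ((hG.differentiableOn (by simp)).differentiableAt (hU.mem_nhds (hlU y))).hasFDerivAt
      exact (h4.comp_hasDerivAt y (hl y)).deriv
    rw [h3]
    exact h2 l hl hlU x

theorem LGB_bd {E F : Type*} [NormedAddCommGroup E] [NormedSpace ℝ E] [NormedAddCommGroup F]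
    [NormedSpace ℝ F] (U : Set E) (hU : IsOpen U) (K : Set E) (hK : IsCompact K) (hKU : K ⊆ U)
    (v : E) (n : ℕ) (G : E → F) (hG : ContDiffOn ℝ ∞ G U) :
    ∃ M : ℝ, 0 ≤ M ∧ ∀ j ≤ n, ∀ l : ℝ → E, (∀ x, HasDerivAt l v x) → (∀ x, l x ∈ U) →
        ∀ x, l x ∈ K → ‖iteratedDeriv j (fun x => G (l x)) x‖ ≤ M := by
  have h1 : ∀ j : ℕ, ∃ C : ℝ, ∀ l : ℝ → E, (∀ x, HasDerivAt l v x) → (∀ x, l x ∈ U) →
        ∀ x, l x ∈ K → ‖iteratedDeriv j (fun x => G (l x)) x‖ ≤ C := by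
    intro j
    obtain ⟨G', h2, h3⟩ := LGB_dir U hU v j G hG
    obtain ⟨C, hC⟩ := hK.exists_bound_of_continuousOn (h2.continuousOn.mono hKU)
    refine ⟨C, fun l hl hlU x hx => ?_⟩
    rw [h3 l hl hlU x]
    exact hC _ hx
  choose C hC using h1
  refine ⟨∑ j ∈ Finset.range (n + 1), |C j|, Finset.sum_nonneg fun _ _ => abs_nonneg _, ?_⟩
  intro j hj l hl hlU x hx
  refine (hC j l hl hlU x hx).trans ((le_abs_self _).trans ?_)
  exact Finset.single_le_sum (f := fun j => |C j|) (fun _ _ => abs_nonneg _)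
    (Finset.mem_range.2 (by omega))

/-- the open set -/
def LGB_U : Set (ℝ × ℝ) := {q | 0 < q.1 ^ 2 + q.2 ^ 2}

/-- the compact set -/
def LGB_K : Set (ℝ × ℝ) := {q | 1 / 2 ≤ |q.1| ∧ |q.1| ≤ 2 ∧ |q.2| ≤ 1}

theorem LGB_Uo : IsOpen LGB_U := isOpen_lt continuous_const (by fun_prop)

theorem LGB_Kc : IsCompact LGB_K := by
  refine (isCompact_Icc.prod isCompact_Icc : IsCompact (Icc (-2 : ℝ) 2 ×ˢ Icc (-1 : ℝ) 1)).of_isClosed_subset ?_ ?_
  · have h1 : IsClosed {q : ℝ × ℝ | 1 / 2 ≤ |q.1|} := isClosed_le continuous_const (continuous_abs.comp continuous_fst)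
    have h2 : IsClosed {q : ℝ × ℝ | |q.1| ≤ 2} := isClosed_le (continuous_abs.comp continuous_fst) continuous_const
    have h3 : IsClosed {q : ℝ × ℝ | |q.2| ≤ 1} := isClosed_le (continuous_abs.comp continuous_snd) continuous_const
    exact h1.inter (h2.inter h3)
  · intro q hq
    exact ⟨abs_le.mp hq.2.1, abs_le.mp hq.2.2⟩

theorem LGB_KU : LGB_K ⊆ LGB_U := by
  intro q hq
  show 0 < q.1 ^ 2 + q.2 ^ 2
  have h1 : 0 < |q.1| := lt_of_lt_of_le (by norm_num) hq.1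
  have h2 : 0 < q.1 ^ 2 := by rw [← sq_abs]; positivity
  positivity

theorem LGB_e (τ : ℝ) (hτ : |τ| ≤ 1 / 4) : Real.exp τ ≤ 2 ∧ Real.exp (2 * τ) ≤ 2 := by
  have h1 := (abs_le.mp hτ).2
  have h2 : Real.exp (1 / 2) ≤ 2 := by
    have h3 : (Real.exp (1 / 2)) ^ 2 = Real.exp 1 := by
      rw [← Real.exp_nat_mul]
      congr 1
      norm_num
    have h4 := Real.exp_one_lt_d9
    have h5 := Real.exp_pos (1 / 2)
    nlinarith
  exact ⟨(Real.exp_le_exp.mpr (by linarith)).trans h2, (Real.exp_le_exp.mpr (by linarith)).trans h2⟩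

/-- the scaled function -/
theorem LGB_sc (k : ℕ) (G : ℝ × ℝ → ℝ) (hG : ContDiffOn ℝ ∞ G LGB_U) : ∃ M : ℝ, 0 ≤ M ∧ ∀ t τ : ℝ, 4 ≤ |t| → |τ| ≤ 1 / 4 →
    ContDiff ℝ ∞ (fun x : ℝ => |t|⁻¹ * G (|t|⁻¹ * x - t / |t|, Real.exp τ / |t|)) ∧
    ∀ x : ℝ, |x| ≤ 1 / 4 → ∀ n ≤ k,
      |iteratedDeriv n (fun x : ℝ => |t|⁻¹ * G (|t|⁻¹ * x - t / |t|, Real.exp τ / |t|)) x| ≤ M / |t| ^ (n + 1) := by
  obtain ⟨M, hM, hb⟩ := LGB_bd LGB_U LGB_Uo LGB_K LGB_Kc LGB_KU ((1, 0) : ℝ × ℝ) k G hG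
  refine ⟨M, hM, fun t τ ht hτ => ?_⟩
  have ht0 : 0 < |t| := by linarith
  have hv : 0 < Real.exp τ / |t| := by positivity
  have hd : ∀ s : ℝ, HasDerivAt (fun s : ℝ => ((s - t / |t|, Real.exp τ / |t|) : ℝ × ℝ)) ((1, 0) : ℝ × ℝ) s := by
    intro s
    exact ((hasDerivAt_id s).sub_const _).prodMk (hasDerivAt_const s _)
  have hU : ∀ s : ℝ, ((s - t / |t|, Real.exp τ / |t|) : ℝ × ℝ) ∈ LGB_U := by
    intro s
    show 0 < (s - t / |t|) ^ 2 + (Real.exp τ / |t|) ^ 2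
    positivity
  have hφ : ContDiff ℝ ∞ (fun s : ℝ => G (s - t / |t|, Real.exp τ / |t|)) := by
    refine hG.comp_contDiff ?_ hU
    fun_prop
  have hφ2 : ContDiff ℝ ∞ (fun x : ℝ => G (|t|⁻¹ * x - t / |t|, Real.exp τ / |t|)) :=
    hφ.comp (contDiff_const.mul contDiff_id)
  refine ⟨contDiff_const.mul hφ2, fun x hx n hn => ?_⟩
  rw [iteratedDeriv_const_mul_field]
  have h1 := iteratedDeriv_comp_const_mul (n := n) (f := fun s : ℝ => G (s - t / |t|, Real.exp τ / |t|))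
    (hφ.of_le (by exact_mod_cast le_top)) (|t|⁻¹)
  have h2 : iteratedDeriv n (fun x : ℝ => G (|t|⁻¹ * x - t / |t|, Real.exp τ / |t|)) x =
      |t|⁻¹ ^ n * iteratedDeriv n (fun s : ℝ => G (s - t / |t|, Real.exp τ / |t|)) (|t|⁻¹ * x) := congrFun h1 x
  rw [h2]
  have hK : ((|t|⁻¹ * x - t / |t|, Real.exp τ / |t|) : ℝ × ℝ) ∈ LGB_K := by
    have h3 : |t|⁻¹ * x - t / |t| = (x - t) / |t| := by field_simp
    show 1 / 2 ≤ |(|t|⁻¹ * x - t / |t|)| ∧ |(|t|⁻¹ * x - t / |t|)| ≤ 2 ∧ abs (Real.exp τ / |t|) ≤ 1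
    rw [h3, abs_div, abs_abs, abs_of_pos hv]
    have h4 : |t| - |x| ≤ |x - t| := by
      have := abs_sub_abs_le_abs_sub t x
      rw [abs_sub_comm] at this
      exact this
    have h5 : |x - t| ≤ |x| + |t| := abs_sub x t
    refine ⟨?_, ?_, ?_⟩
    · rw [le_div_iff₀ ht0]; linarith
    · rw [div_le_iff₀ ht0]; linarith
    · rw [div_le_iff₀ ht0]
      have := (LGB_e τ hτ).1
      linarith
  have h6 := hb n hn _ hd hU (|t|⁻¹ * x) hK
  rw [Real.norm_eq_abs] at h6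
  rw [abs_mul, abs_mul, abs_of_pos (inv_pos.mpr ht0), abs_pow, abs_of_pos (inv_pos.mpr ht0)]
  have h7 : |t|⁻¹ * (|t|⁻¹ ^ n * M) = M / |t| ^ (n + 1) := by
    rw [pow_succ, inv_pow]
    field_simp
  rw [← h7]
  have h8 : 0 ≤ |t|⁻¹ := by positivity
  refine mul_le_mul_of_nonneg_left (mul_le_mul_of_nonneg_left h6 (by positivity)) h8

theorem LGB_sq (t x τ : ℝ) (ht : 0 < |t|) :
    (x - t) ^ 2 + Real.exp (2 * τ) = |t| ^ 2 * ((|t|⁻¹ * x - t / |t|) ^ 2 + (Real.exp τ / |t|) ^ 2) := by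
  have h1 : Real.exp (2 * τ) = Real.exp τ ^ 2 := by
    rw [← Real.exp_nat_mul]
    norm_num
  rw [h1]
  field_simp

theorem LGB_proof : LGB_stmt := by
  intro k
  have hN : ContDiffOn ℝ ∞ (fun q : ℝ × ℝ => q.1 ^ 2 + q.2 ^ 2) LGB_U := ContDiff.contDiffOn (by fun_prop)
  have hne : ∀ q ∈ LGB_U, q.1 ^ 2 + q.2 ^ 2 ≠ 0 := fun q hq => (show 0 < q.1 ^ 2 + q.2 ^ 2 from hq).ne'
  have hG0 : ContDiffOn ℝ ∞ (fun q : ℝ × ℝ => (q.1 ^ 2 + q.2 ^ 2) ^ (-(1 / 2) : ℝ)) LGB_U :=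
    ContDiffOn.rpow_const_of_ne hN hne
  have hG1 : ContDiffOn ℝ ∞ (fun q : ℝ × ℝ => 2 * q.1 * (q.1 ^ 2 + q.2 ^ 2)⁻¹) LGB_U :=
    (ContDiff.contDiffOn (by fun_prop)).mul (hN.inv hne)
  obtain ⟨M0, hM0, h0⟩ := LGB_sc k _ hG0
  obtain ⟨M1, hM1, h1⟩ := LGB_sc k _ hG1
  refine ⟨M0 + M1 + 1, by linarith, fun t τ ht hτ => ?_⟩
  have ht0 : 0 < |t| := by linarith
  obtain ⟨a0, b0⟩ := h0 t τ ht hτ
  obtain ⟨a1, b1⟩ := h1 t τ ht hτ
  have hpos : ∀ x : ℝ, 0 < (x - t) ^ 2 + Real.exp (2 * τ) := fun x => by positivity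
  have hpos' : ∀ x : ℝ, 0 < (|t|⁻¹ * x - t / |t|) ^ 2 + (Real.exp τ / |t|) ^ 2 := fun x => by positivity
  have e0 : (fun x : ℝ => ((x - t) ^ 2 + Real.exp (2 * τ)) ^ (-(1 / 2) : ℝ)) =
      fun x : ℝ => |t|⁻¹ * ((|t|⁻¹ * x - t / |t|) ^ 2 + (Real.exp τ / |t|) ^ 2) ^ (-(1 / 2) : ℝ) := by
    funext x
    rw [LGB_sq t x τ ht0, Real.mul_rpow (by positivity) (hpos' x).le]
    congr 1
    rw [← Real.rpow_natCast, ← Real.rpow_mul ht0.le, ← Real.rpow_neg_one]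
    norm_num
  have hlog : ContDiff ℝ ∞ (fun x : ℝ => Real.log ((x - t) ^ 2 + Real.exp (2 * τ))) := by
    refine ContDiff.log (by fun_prop) fun x => (hpos x).ne'
  have hder : ∀ x : ℝ, HasDerivAt (fun x : ℝ => Real.log ((x - t) ^ 2 + Real.exp (2 * τ)))
      ((2 * (x - t)) / ((x - t) ^ 2 + Real.exp (2 * τ))) x := by
    intro x
    have h2 : HasDerivAt (fun x : ℝ => (x - t) ^ 2 + Real.exp (2 * τ)) (2 * (x - t)) x := by
      have h3 := (((hasDerivAt_id x).sub_const t).pow 2).add_const (Real.exp (2 * τ))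
      simpa using h3
    exact h2.log (hpos x).ne'
  have e1 : deriv (fun x : ℝ => Real.log ((x - t) ^ 2 + Real.exp (2 * τ))) =
      fun x : ℝ => |t|⁻¹ * (2 * (|t|⁻¹ * x - t / |t|) *
        ((|t|⁻¹ * x - t / |t|) ^ 2 + (Real.exp τ / |t|) ^ 2)⁻¹) := by
    funext x
    rw [(hder x).deriv, LGB_sq t x τ ht0]
    have h2 := (hpos' x).ne'
    have h3 : 2 * (x - t) = |t| * (2 * (|t|⁻¹ * x - t / |t|)) := by field_simp
    rw [h3]
    generalize (|t|⁻¹ * x - t / |t|) ^ 2 + (Real.exp τ / |t|) ^ 2 = Q at h2 ⊢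
    field_simp
  refine ⟨?_, hlog, fun x hx => ⟨?_, fun n hn => ?_, fun n hn1 hn => ?_⟩⟩
  · rw [e0]; exact a0
  · rw [(hder x).deriv, abs_div, abs_of_pos (hpos x), div_le_div_iff₀ (by positivity) (hpos x), abs_mul, abs_two]
    have h4 : |t| - |x| ≤ |x - t| := by
      have := abs_sub_abs_le_abs_sub t x
      rw [abs_sub_comm] at this
      exact this
    have h5 : |x - t| ≤ |x| + |t| := abs_sub x t
    have h6 := (LGB_e τ hτ).2
    have h7 : (x - t) ^ 2 = |x - t| ^ 2 := (sq_abs _).symm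
    rw [h7]
    have h8 : 0 ≤ |x - t| := abs_nonneg _
    have h9 : |x - t| ≤ |t| + 1 / 4 := by linarith
    have h10 : |t| - 1 / 4 ≤ |x - t| := by linarith
    nlinarith
  · rw [e0]
    refine (b0 x hx n hn).trans ?_
    exact div_le_div_of_nonneg_right (by linarith) (by positivity)
  · obtain ⟨m, rfl⟩ : ∃ m, n = m + 1 := ⟨n - 1, by omega⟩
    rw [iteratedDeriv_succ', e1]
    refine (b1 x hx m (by omega)).trans ?_
    exact div_le_div_of_nonneg_right (by linarith) (by positivity)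

end Pool.Agent.RPQ
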